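import Pool.Agent.R587.LUMain
import Pool.Agent.R587.Omg
import Pool.Agent.R587.LevUM
import Pool.Agent.R587.VocRed

/-!
# Categoricity of second-order theories with small models under `V = L[U]`
-/

set_option autoImplicit false

namespace Pool.Agent.Results.MP_477625_lc.SmallModels

open Cardinal
open Pool.Agent.R587

/-- Let `U` be a normal measure on the cardinal `κ`, and assume `V = L[U]`. Then every complete,
recursively axiomatized second-order theory (in a finite vocabulary) which has a model of
cardinality less than `κ` is categorical. -/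
theorem result {κ : Cardinal.{0}} {U : ZFSet.{0}} (hU : IsNormalMeasure κ U) (hV : VLU U)
    {m l : ℕ} (ar : Fin m → ℕ) (af : Fin l → ℕ) (T : Set (Voc.Fo ar af)) (hT : Voc.IsTheory T)
    (hc : Voc.CompleteT T) (hr : Voc.RecAx T) (A : Voc.St ar af) (hA : Voc.ModelsT A T)
    (hlt : #A.Dom < κ) : Voc.CategoricalT T := by
  have _ := hT
  obtain ⟨m', ar', T', -, h2, h3, h4, h5⟩ := Voc.reduce hc hr
  obtain ⟨A', hA', hA''⟩ := h4 A hA
  refine h5 (categorical_of_pm hU (fun ν hν hUν =>
    ⟨pm_HH hU.nms hV.lv hν hUν, cod_HH hU.nms hV.lv hν hUν⟩) h2 h3 hA'' ?_)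
  rw [hA']
  exact hlt

end Pool.Agent.Results.MP_477625_lc.SmallModels
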